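import Pool.Agent.H44.Cube.SUB4

/-!
# Cube problem, block SUB, part 5 (helper44): homogeneous coordinates on the order simplex

`IZ n E`: the functional `z^α ↦ ∏ (α_i - 1)! / (|α| - 1)!` on polynomials in `n` variables;
`cc l = z_l + ... + z_n`; for `l ≥ 1` these are the affine coordinates `c_l` of the order simplex.
`IZ_cc`: `IZ (z_0 ... z_n * c^β) = JD (c^β)`.
-/

set_option autoImplicit false

namespace Pool.H44.Cube

open MvPolynomial Finset

variable {E : Type*} [CommRing E] [Algebra ℚ E]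

/-- Dirichlet weights. -/
def dirw {n : ℕ} (α : Fin n →₀ ℕ) : ℚ :=
  (∏ i, (((α i - 1).factorial : ℕ) : ℚ)) / ((((∑ i, α i) - 1).factorial : ℕ) : ℚ)

/-- The functional `z^α ↦ ∏ (α_i - 1)! / (|α| - 1)!`. -/
noncomputable def IZ (n : ℕ) (E : Type*) [CommRing E] [Algebra ℚ E] :
    MvPolynomial (Fin n) E →ₗ[E] E := func E dirw

theorem IZ_monomial {n : ℕ} (α : Fin n →₀ ℕ) (c : E) :
    IZ n E (monomial α c) = c * algebraMap ℚ E (dirw α) := func_monomial _ α c

/-- `z_0 ⋯ z_n`. -/
noncomputable def PZ (n : ℕ) (E : Type*) [CommRing E] : MvPolynomial (Fin n) E := ∏ i, X i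

omit [Algebra ℚ E] in
theorem PZ_eq (n : ℕ) : PZ n E = mon E fun _ => 1 := by
  rw [mon_eq, PZ]
  simp

/-- `z_0 + ⋯ + z_n`. -/
noncomputable def SZ (n : ℕ) (E : Type*) [CommRing E] : MvPolynomial (Fin n) E := ∑ i, X i

theorem dirw_sum {n : ℕ} (α : Fin (n + 1) →₀ ℕ) (h : ∀ i, 1 ≤ α i) :
    ∑ i, dirw (Finsupp.single i 1 + α) = dirw α := by
  classical
  have hsum : ∀ i, ∑ j, (Finsupp.single i 1 + α : Fin (n + 1) →₀ ℕ) j = (∑ j, α j) + 1 := by
    intro i
    simp only [Finsupp.add_apply, Finset.sum_add_distrib]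
    rw [add_comm]
    congr 1
    simp [Finsupp.single_apply]
  have hprod : ∀ i, ∏ j, ((((Finsupp.single i 1 + α : Fin (n + 1) →₀ ℕ) j - 1).factorial : ℕ) : ℚ) =
      (α i : ℚ) * ∏ j, (((α j - 1).factorial : ℕ) : ℚ) := by
    intro i
    rw [← Finset.mul_prod_erase _ _ (Finset.mem_univ i),
      ← Finset.mul_prod_erase Finset.univ (fun j => (((α j - 1).factorial : ℕ) : ℚ))
        (Finset.mem_univ i)]
    have h1 : ∏ j ∈ Finset.univ.erase i,
        ((((Finsupp.single i 1 + α : Fin (n + 1) →₀ ℕ) j - 1).factorial : ℕ) : ℚ) =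
        ∏ j ∈ Finset.univ.erase i, (((α j - 1).factorial : ℕ) : ℚ) := by
      refine Finset.prod_congr rfl fun j hj => ?_
      rw [Finsupp.add_apply, Finsupp.single_apply, if_neg (Finset.ne_of_mem_erase hj).symm,
        zero_add]
    rw [h1, Finsupp.add_apply, Finsupp.single_eq_same, ← mul_assoc]
    congr 1
    have h2 : 1 + α i - 1 = (α i - 1) + 1 := by have := h i; omega
    have h3 : (α i : ℚ) = (((α i - 1) + 1 : ℕ) : ℚ) := by
      have := h i
      congr 1
      omega
    rw [h2, Nat.factorial_succ, Nat.cast_mul, ← h3]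
  have hpos : 1 ≤ ∑ j, α j := le_trans (h 0)
    (Finset.single_le_sum (f := fun j => α j) (fun _ _ => Nat.zero_le _) (Finset.mem_univ 0))
  simp only [dirw]
  simp_rw [hsum, hprod]
  rw [← Finset.sum_div, ← Finset.sum_mul]
  have h4 : (∑ j, α j) + 1 - 1 = ((∑ j, α j) - 1) + 1 := by omega
  rw [h4, Nat.factorial_succ]
  have h5 : (∑ i, (α i : ℚ)) = ((((∑ j, α j) - 1) + 1 : ℕ) : ℚ) := by
    rw [Nat.sub_add_cancel hpos]
    push_cast
    rfl
  rw [h5, Nat.cast_mul]
  have h6 : ((((∑ j, α j) - 1) + 1 : ℕ) : ℚ) ≠ 0 := by positivity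
  rw [mul_div_mul_left _ _ h6]

/-- Multiplication by `z_0 + ⋯ + z_n` does not change the integral. -/
theorem IZ_SZ_mul {n : ℕ} (H : MvPolynomial (Fin (n + 1)) E) :
    IZ (n + 1) E (PZ (n + 1) E * (SZ (n + 1) E * H)) = IZ (n + 1) E (PZ (n + 1) E * H) := by
  classical
  induction H using MvPolynomial.induction_on' with
  | monomial κ c =>
    rw [PZ_eq, mon]
    set one1 : Fin (n + 1) →₀ ℕ := Finsupp.equivFunOnFinite.symm fun _ => 1 with h1
    have hone : ∀ i, one1 i = 1 := fun i => by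
      rw [h1, Finsupp.equivFunOnFinite_symm_apply_apply]
    rw [monomial_mul, one_mul, IZ_monomial, SZ, Finset.sum_mul, Finset.mul_sum, map_sum]
    have h2 : ∀ i : Fin (n + 1), IZ (n + 1) E (monomial one1 1 * (X i * monomial κ c)) =
        c * algebraMap ℚ E (dirw (Finsupp.single i 1 + (one1 + κ))) := by
      intro i
      rw [X, monomial_mul, monomial_mul, one_mul, one_mul, IZ_monomial]
      congr 3
      abel
    simp_rw [h2]
    rw [← Finset.mul_sum, ← map_sum, dirw_sum]
    intro i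
    rw [Finsupp.add_apply, hone]
    omega
  | add p q hp hq => simp only [mul_add, map_add, hp, hq]

/-- The integral depends only on the class modulo `z_0 + ⋯ + z_n - 1`. -/
theorem IZ_congr {n : ℕ} (Q Q' : MvPolynomial (Fin (n + 1)) E)
    (h : Q - Q' ∈ Ideal.span {SZ (n + 1) E - 1}) :
    IZ (n + 1) E (PZ (n + 1) E * Q) = IZ (n + 1) E (PZ (n + 1) E * Q') := by
  rw [Ideal.mem_span_singleton] at h
  obtain ⟨H, hH⟩ := h
  have hQ : Q = Q' + (SZ (n + 1) E * H - H) := by linear_combination hH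
  rw [hQ, mul_add, map_add, mul_sub, map_sub, IZ_SZ_mul, sub_self, add_zero]

/-- Integration of the variable `z_0`. -/
theorem IZ_X_mul_rename {n h : ℕ} (hh : 1 ≤ h) (H : MvPolynomial (Fin n) E)
    (hH : H.IsHomogeneous h) :
    IZ (n + 1) E (X 0 * rename Fin.succ H) = algebraMap ℚ E ((h : ℚ))⁻¹ * IZ n E H := by
  classical
  have hmon : ∀ κ ∈ H.support, ∑ i, κ i = h := by
    intro κ hκ
    have h1 := hH (mem_support_iff.1 hκ)
    rw [← h1]
    simp [Finsupp.weight_apply, Finsupp.sum_fintype]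
  conv_lhs => rw [H.as_sum]
  conv_rhs => rw [H.as_sum]
  simp only [map_sum, Finset.mul_sum]
  refine Finset.sum_congr rfl fun κ hκ => ?_
  rw [rename_monomial, X, monomial_mul, one_mul, IZ_monomial, IZ_monomial]
  have key : dirw (Finsupp.single 0 1 + Finsupp.mapDomain (Fin.succ : Fin n → Fin (n + 1)) κ) =
      ((h : ℚ))⁻¹ * dirw κ := by
    have e0 : (Finsupp.single 0 1 + Finsupp.mapDomain (Fin.succ : Fin n → Fin (n + 1)) κ :
        Fin (n + 1) →₀ ℕ) 0 = 1 := by
      rw [Finsupp.add_apply, Finsupp.single_eq_same, Finsupp.mapDomain_of_notMem_range _ _ (by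
        rintro ⟨j, hj⟩
        exact Fin.succ_ne_zero j hj), add_zero]
    have e1 : ∀ i : Fin n, (Finsupp.single 0 1 +
        Finsupp.mapDomain (Fin.succ : Fin n → Fin (n + 1)) κ : Fin (n + 1) →₀ ℕ) i.succ = κ i := by
      intro i
      rw [Finsupp.add_apply, Finsupp.single_eq_of_ne (Fin.succ_ne_zero i), zero_add,
        Finsupp.mapDomain_apply (Fin.succ_injective n)]
    simp only [dirw]
    rw [Fin.prod_univ_succ, Fin.sum_univ_succ, e0]
    simp_rw [e1]
    rw [hmon κ hκ]
    have h2 : 1 + h - 1 = (h - 1) + 1 := by omega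
    have h3 : (h : ℚ) = (((h - 1) + 1 : ℕ) : ℚ) := by
      congr 1
      omega
    rw [h2, Nat.factorial_succ, Nat.cast_mul, ← h3]
    have h4 : (h : ℚ) ≠ 0 := by positivity
    simp only [Nat.sub_self, Nat.factorial_zero, Nat.cast_one, one_mul]
    field_simp
  rw [key, map_mul]
  ring

/-- `z_l + ... + z_n`. -/
noncomputable def cc (n : ℕ) (E : Type*) [CommRing E] (l : Fin n) : MvPolynomial (Fin n) E :=
  ∑ i ∈ Finset.univ.filter (fun i => l ≤ i), X i

omit [Algebra ℚ E] in
theorem cc_zero (n : ℕ) : cc (n + 1) E 0 = SZ (n + 1) E := by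
  rw [cc, SZ, Finset.filter_true_of_mem (fun i _ => Fin.zero_le i)]

omit [Algebra ℚ E] in
theorem cc_succ (n : ℕ) (l : Fin n) : cc (n + 1) E l.succ = rename Fin.succ (cc n E l) := by
  rw [cc, cc, map_sum, Finset.sum_filter, Finset.sum_filter, Fin.sum_univ_succ, if_neg (by simp),
    zero_add]
  refine Finset.sum_congr rfl fun i _ => ?_
  simp only [Fin.succ_le_succ_iff, rename_X]

omit [Algebra ℚ E] in
theorem cc_isHomogeneous (n : ℕ) (l : Fin n) : (cc n E l).IsHomogeneous 1 :=
  IsHomogeneous.sum _ _ _ fun i _ => isHomogeneous_X E i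

omit [Algebra ℚ E] in
theorem PZ_succ (n : ℕ) : PZ (n + 1) E = X 0 * rename Fin.succ (PZ n E) := by
  rw [PZ, PZ, Fin.prod_univ_succ, map_prod]
  simp only [rename_X]

/-- The Dirichlet integral of a monomial in the coordinates of the order simplex. -/
theorem IZ_cc (n : ℕ) (β : Fin n → ℕ) :
    IZ (n + 1) E (PZ (n + 1) E * ∏ l : Fin n, cc (n + 1) E l.succ ^ β l) =
      algebraMap ℚ E (∏ l, (tail (fun i => ((β i + 1 : ℕ) : ℚ)) l)⁻¹) := by
  induction n with
  | zero =>
    rw [PZ_eq, mon]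
    simp only [Finset.univ_eq_empty, Finset.prod_empty, mul_one, map_one]
    rw [IZ_monomial]
    have : dirw (Finsupp.equivFunOnFinite.symm fun _ : Fin (0 + 1) => 1) = 1 := by
      simp [dirw]
    rw [this, map_one, one_mul]
  | succ n ih =>
    have h1 : ∏ l : Fin (n + 1), cc (n + 1 + 1) E l.succ ^ β l =
        rename Fin.succ (∏ l : Fin (n + 1), cc (n + 1) E l ^ β l) := by
      rw [map_prod]
      refine Finset.prod_congr rfl fun l _ => ?_
      rw [cc_succ, map_pow]
    rw [h1, PZ_succ, mul_assoc, ← map_mul]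
    have hhom : (PZ (n + 1) E * ∏ l : Fin (n + 1), cc (n + 1) E l ^ β l).IsHomogeneous
        (∑ l : Fin (n + 1), (β l + 1)) := by
      have e1 : ∑ l : Fin (n + 1), (β l + 1) =
          (∑ l : Fin (n + 1), 1) + ∑ l : Fin (n + 1), 1 * β l := by
        rw [← Finset.sum_add_distrib]
        refine Finset.sum_congr rfl fun l _ => ?_
        ring
      rw [e1]
      apply IsHomogeneous.mul
      · exact IsHomogeneous.prod _ _ _ fun i _ => isHomogeneous_X E i
      · exact IsHomogeneous.prod _ _ _ fun i _ => (cc_isHomogeneous (n + 1) i).pow _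
    have hpos : 1 ≤ ∑ l : Fin (n + 1), (β l + 1) := by
      rw [Fin.sum_univ_succ]
      omega
    rw [IZ_X_mul_rename hpos _ hhom, Fin.prod_univ_succ (fun l : Fin (n + 1) =>
      cc (n + 1) E l ^ β l), cc_zero]
    -- remove the powers of the sum
    have h2 : ∀ (k : ℕ) (H : MvPolynomial (Fin (n + 1)) E),
        IZ (n + 1) E (PZ (n + 1) E * (SZ (n + 1) E ^ k * H)) =
          IZ (n + 1) E (PZ (n + 1) E * H) := by
      intro k
      induction k with
      | zero => intro H; rw [pow_zero, one_mul]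
      | succ k ihk =>
        intro H
        rw [pow_succ', mul_assoc, IZ_SZ_mul, ihk]
    rw [h2, ih (fun l => β l.succ), Fin.prod_univ_succ (fun l : Fin (n + 1) =>
      (tail (fun i => ((β i + 1 : ℕ) : ℚ)) l)⁻¹), map_mul]
    congr 1
    · rw [tail_zero]
      congr 1
      push_cast
      rfl
    · congr 1
      refine Finset.prod_congr rfl fun l _ => ?_
      rw [tail_succ]

/-- The substitution of the homogeneous coordinates in a polynomial on the order simplex. -/
noncomputable def tz (n : ℕ) (E : Type*) [CommRing E] :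
    MvPolynomial (Fin n) E →ₐ[E] MvPolynomial (Fin (n + 1)) E := aeval fun l => cc (n + 1) E l.succ

theorem IZ_tz {n : ℕ} (P : MvPolynomial (Fin n) E) :
    IZ (n + 1) E (PZ (n + 1) E * tz n E P) = JD n E P := by
  induction P using MvPolynomial.induction_on' with
  | monomial κ c =>
    have h0 : monomial κ c = c • mon E (κ : Fin n → ℕ) := by
      rw [mon, smul_monomial, smul_eq_mul, mul_one]
      congr 1
      ext
      simp
    have h1 : tz n E (mon E (κ : Fin n → ℕ)) = ∏ l : Fin n, cc (n + 1) E l.succ ^ κ l := by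
      rw [mon_eq, map_prod]
      refine Finset.prod_congr rfl fun l _ => ?_
      rw [map_pow, tz, aeval_X]
    rw [JD_monomial, h0, map_smul, mul_smul_comm, map_smul, h1, IZ_cc, smul_eq_mul]
  | add p q hp hq => rw [map_add, mul_add, map_add, hp, hq, map_add]

/-- Homogenisation of degree `d` of a polynomial on the order simplex. -/
noncomputable def hz (n : ℕ) (E : Type*) [CommRing E] (d : ℕ) (P : MvPolynomial (Fin n) E) :
    MvPolynomial (Fin (n + 1)) E :=
  ∑ κ ∈ P.support, C (P.coeff κ) *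
    (SZ (n + 1) E ^ (d - ∑ i, κ i) * ∏ l : Fin n, cc (n + 1) E l.succ ^ κ l)

omit [Algebra ℚ E] in
theorem hz_sub_tz (n d : ℕ) (P : MvPolynomial (Fin n) E) :
    hz n E d P - tz n E P ∈ Ideal.span {SZ (n + 1) E - 1} := by
  have h1 : tz n E P = ∑ κ ∈ P.support, C (P.coeff κ) * ∏ l : Fin n, cc (n + 1) E l.succ ^ κ l := by
    rw [tz, aeval_def, eval₂_eq']
    rfl
  rw [h1, hz, ← Finset.sum_sub_distrib]
  apply Ideal.sum_mem
  intro κ _
  rw [← mul_sub]
  apply Ideal.mul_mem_left
  have h2 : SZ (n + 1) E ^ (d - ∑ i, κ i) * ∏ l : Fin n, cc (n + 1) E l.succ ^ κ l -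
      ∏ l : Fin n, cc (n + 1) E l.succ ^ κ l =
      (∏ l : Fin n, cc (n + 1) E l.succ ^ κ l) * (SZ (n + 1) E ^ (d - ∑ i, κ i) - 1) := by ring
  rw [h2]
  apply Ideal.mul_mem_left
  rw [Ideal.mem_span_singleton]
  have h3 := sub_dvd_pow_sub_pow (SZ (n + 1) E) 1 (d - ∑ i, κ i)
  rwa [one_pow] at h3

omit [Algebra ℚ E] in
theorem hz_isHomogeneous {n d : ℕ} {P : MvPolynomial (Fin n) E}
    (h : ∀ κ ∈ P.support, ∑ i, κ i ≤ d) : (hz n E d P).IsHomogeneous d := by
  apply IsHomogeneous.sum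
  intro κ hκ
  have e : d = 0 + (1 * (d - ∑ i, κ i) + ∑ l : Fin n, 1 * κ l) := by
    have h1 := h κ hκ
    have h2 : ∑ l : Fin n, 1 * κ l = ∑ i, κ i := Finset.sum_congr rfl fun l _ => one_mul _
    rw [h2]
    omega
  conv_rhs => rw [e]
  apply IsHomogeneous.mul
  · exact isHomogeneous_C _ _
  · apply IsHomogeneous.mul
    · exact IsHomogeneous.pow (IsHomogeneous.sum _ _ _ fun i _ => isHomogeneous_X E i) _
    · exact IsHomogeneous.prod _ _ _ fun i _ => (cc_isHomogeneous (n + 1) i.succ).pow _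

omit [Algebra ℚ E] in
theorem mul_sub_mul_mem {R : Type*} [CommRing R] {I : Ideal R} {a b c d : R} (h1 : a - b ∈ I)
    (h2 : c - d ∈ I) : a * c - b * d ∈ I := by
  have : a * c - b * d = c * (a - b) + b * (c - d) := by ring
  rw [this]
  exact I.add_mem (I.mul_mem_left _ h1) (I.mul_mem_left _ h2)

omit [Algebra ℚ E] in
theorem pow_sub_pow_mem {R : Type*} [CommRing R] {I : Ideal R} {a b : R} (h1 : a - b ∈ I)
    (m : ℕ) : a ^ m - b ^ m ∈ I := by
  induction m with
  | zero => simp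
  | succ m ih => rw [pow_succ, pow_succ]; exact mul_sub_mul_mem ih h1

/-- The integral over the order simplex in homogeneous coordinates. -/
theorem IZ_hz {n : ℕ} (d d' m : ℕ) (W G : MvPolynomial (Fin n) E) :
    IZ (n + 1) E (PZ (n + 1) E * (hz n E d' W * hz n E d G ^ m)) = JD n E (W * G ^ m) := by
  rw [← IZ_tz, map_mul (tz n E), map_pow (tz n E)]
  apply IZ_congr
  exact mul_sub_mul_mem (hz_sub_tz n d' W) (pow_sub_pow_mem (hz_sub_tz n d G) m)

end Pool.H44.Cube
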