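import Pool.Agent.H4.Cube.PartC
import Pool.Agent.H4.Cube.PartD

/-!
# Front end of the cube problem, part 1 (helper44)

`fe1`: the frozen statement S01357 follows from `NoBad`: no nonzero polynomial over a number field
has all its cube moments equal to zero.
-/

set_option autoImplicit false

namespace Pool.H44.Cube

open MvPolynomial Pool.Agent.H4.Cube

/-- Over number fields a polynomial all of whose powers have cube moment `0` is zero. -/
def NoBad : Prop :=
  ∀ (k : Type) [Field k] [Algebra ℚ k] [FiniteDimensional ℚ k] (n : ℕ)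
    (f : MvPolynomial (Fin n) k), (∀ m : ℕ, 1 ≤ m → Lf (f ^ m) = 0) → f = 0

/-- The moment functional over a `ℚ`-algebra. -/
noncomputable def LA (n : ℕ) (A : Type*) [CommRing A] [Algebra ℚ A] :
    MvPolynomial (Fin n) A →ₗ[A] A :=
  (basisMonomials (Fin n) A).constr A fun κ => algebraMap ℚ A (∏ i, (((κ i + 1 : ℕ) : ℚ))⁻¹)

theorem LA_monomial {n : ℕ} {A : Type*} [CommRing A] [Algebra ℚ A] (κ : Fin n →₀ ℕ) (c : A) :
    LA n A (monomial κ c) = c * algebraMap ℚ A (∏ i, (((κ i + 1 : ℕ) : ℚ))⁻¹) := by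
  have h : monomial κ c = c • (basisMonomials (Fin n) A) κ := by
    rw [coe_basisMonomials, smul_monomial, smul_eq_mul, mul_one]
  rw [h, map_smul, LA, Module.Basis.constr_basis, smul_eq_mul]

theorem LA_map {n : ℕ} {A B : Type*} [CommRing A] [Algebra ℚ A] [CommRing B] [Algebra ℚ B]
    (φ : A →+* B) (P : MvPolynomial (Fin n) A) : LA n B (map φ P) = φ (LA n A P) := by
  induction P using MvPolynomial.induction_on' with
  | monomial κ c =>
    rw [map_monomial, LA_monomial, LA_monomial, map_mul]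
    congr 1
    exact (RingHom.map_rat_algebraMap φ _).symm
  | add p q hp hq => rw [map_add, map_add, hp, hq, map_add, map_add]

theorem LA_eq_Lf {n : ℕ} {k : Type*} [Field k] [Algebra ℚ k] (P : MvPolynomial (Fin n) k) :
    LA n k P = Lf P := by
  induction P using MvPolynomial.induction_on' with
  | monomial κ c =>
    rw [LA_monomial, Lf_monomial]
    congr 1
    rw [map_prod]
    refine Finset.prod_congr rfl fun i _ => ?_
    rw [map_inv₀, map_natCast]
  | add p q hp hq => rw [map_add, hp, hq, map_add]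

theorem integral_eq_Lf {n : ℕ} (P : MvPolynomial (Fin n) ℂ) :
    ∫ x in Set.Icc (0 : Fin n → ℝ) 1, MvPolynomial.eval (fun i => ((x i : ℝ) : ℂ)) P = Lf P := by
  rw [integral_eval, Lf_eq]
  refine Finset.sum_congr rfl fun κ _ => ?_
  congr 1
  refine Finset.prod_congr rfl fun i _ => ?_
  push_cast
  rw [one_div]

/-- Specialisation of a complex polynomial with vanishing moments to a number field. -/
theorem spec (hNB : NoBad) {n : ℕ} (g : MvPolynomial (Fin n) ℂ)
    (hg : ∀ m : ℕ, 1 ≤ m → Lf (g ^ m) = 0) : g = 0 := by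
  classical
  by_contra hne
  obtain ⟨κ0, hκ0⟩ : ∃ κ0, g.coeff κ0 ≠ 0 := by
    by_contra h
    push Not at h
    exact hne (MvPolynomial.ext _ _ fun κ => by rw [h κ, coeff_zero])
  set c : ℂ := g.coeff κ0 with hc
  set g' : MvPolynomial (Fin n) ℂ := C c⁻¹ * g with hg'
  have hg'0 : g'.coeff κ0 = 1 := by
    rw [hg', coeff_C_mul, ← hc, inv_mul_cancel₀ hκ0]
  have hg'm : ∀ m : ℕ, 1 ≤ m → Lf (g' ^ m) = 0 := by
    intro m hm
    rw [hg', mul_pow, ← map_pow, ← smul_eq_C_mul, map_smul, hg m hm, smul_zero]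
  let ι : Type := {κ // κ ∈ g'.support}
  let x : ι → ℂ := fun κ => g'.coeff κ.1
  let G : MvPolynomial (Fin n) (MvPolynomial ι ℚ) := ∑ κ : ι, monomial κ.1 (X κ)
  set ψ : MvPolynomial ι ℚ →ₐ[ℚ] ℂ := aeval x with hψ
  have hG : map ψ.toRingHom G = g' := by
    have h1 : map ψ.toRingHom G = ∑ κ : ι, monomial κ.1 (g'.coeff κ.1) := by
      simp only [G, map_sum, map_monomial]
      refine Finset.sum_congr rfl fun κ _ => ?_
      congr 1
      change aeval x (X κ) = _
      rw [aeval_X]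
    rw [h1]
    conv_rhs => rw [g'.as_sum]
    exact Finset.sum_coe_sort g'.support (fun κ => monomial κ (g'.coeff κ))
  have hk0 : κ0 ∈ g'.support := by
    rw [mem_support_iff, hg'0]
    exact one_ne_zero
  set I : Ideal (MvPolynomial ι ℚ) := RingHom.ker ψ with hI
  have hI' : I ≠ ⊤ := RingHom.ker_ne_top _
  obtain ⟨M, hM, hIM⟩ := Ideal.exists_le_maximal I hI'
  let _ : Field (MvPolynomial ι ℚ ⧸ M) := Ideal.Quotient.field M
  have hft : Algebra.FiniteType ℚ (MvPolynomial ι ℚ ⧸ M) :=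
    Algebra.FiniteType.of_surjective (Ideal.Quotient.mkₐ ℚ M) (Ideal.Quotient.mkₐ_surjective ℚ M)
  have hfin : Module.Finite ℚ (MvPolynomial ι ℚ ⧸ M) :=
    finite_of_finite_type_of_isJacobsonRing ℚ (MvPolynomial ι ℚ ⧸ M)
  have hmom : ∀ m : ℕ, 1 ≤ m → LA n _ (G ^ m) ∈ M := by
    intro m hm
    apply hIM
    rw [hI, RingHom.mem_ker]
    have h1 := LA_map ψ.toRingHom (G ^ m)
    rw [map_pow, hG, LA_eq_Lf, hg'm m hm] at h1
    exact h1.symm
  have hX : (X ⟨κ0, hk0⟩ : MvPolynomial ι ℚ) - 1 ∈ M := by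
    apply hIM
    rw [hI, RingHom.mem_ker, map_sub, map_one, hψ, aeval_X]
    change g'.coeff κ0 - 1 = 0
    rw [hg'0, sub_self]
  have hz := hNB (MvPolynomial ι ℚ ⧸ M) n (map (Ideal.Quotient.mk M) G) (by
    intro m hm
    rw [← map_pow, ← LA_eq_Lf, LA_map]
    exact Ideal.Quotient.eq_zero_iff_mem.2 (hmom m hm))
  have hco : (map (Ideal.Quotient.mk M) G).coeff κ0 = 1 := by
    rw [coeff_map]
    have h1 : G.coeff κ0 = X ⟨κ0, hk0⟩ := by
      simp only [G, coeff_sum, coeff_monomial]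
      rw [Finset.sum_eq_single (⟨κ0, hk0⟩ : ι)]
      · simp
      · intro b _ hb
        rw [if_neg]
        intro h
        exact hb (Subtype.ext h)
      · intro h
        exact absurd (Finset.mem_univ _) h
    rw [h1]
    have h2 := Ideal.Quotient.eq_zero_iff_mem.2 hX
    rw [map_sub, map_one, sub_eq_zero] at h2
    exact h2
  rw [hz, coeff_zero] at hco
  exact zero_ne_one hco

/-- The frozen statement follows from `NoBad`. -/
theorem fe1 (hNB : NoBad) :
    ∀ n : ℕ, ∀ f g : MvPolynomial (Fin n) ℂ,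
      (∃ N : ℕ, ∀ m : ℕ, N ≤ m →
        ∫ x in Set.Icc (0 : Fin n → ℝ) 1,
          MvPolynomial.eval (fun i => ((x i : ℝ) : ℂ)) (f ^ m) = 0) →
      ∃ N : ℕ, ∀ m : ℕ, N ≤ m →
        ∫ x in Set.Icc (0 : Fin n → ℝ) 1,
          MvPolynomial.eval (fun i => ((x i : ℝ) : ℂ)) (f ^ m * g) = 0 := by
  rintro n f g ⟨N, hN⟩
  have h0 : f ^ (N + 1) = 0 := by
    apply spec hNB
    intro m hm
    rw [← integral_eq_Lf, ← pow_mul]
    apply hN
    nlinarith
  have hf : f = 0 := pow_eq_zero_iff (Nat.succ_ne_zero N) |>.1 h0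
  refine ⟨1, fun m hm => ?_⟩
  have : f ^ m * g = 0 := by
    rw [hf, zero_pow (by omega), zero_mul]
  rw [this]
  simp

end Pool.H44.Cube
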