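import Mathlib

/-!
# Cube problem, block SUB, part 1 (helper44): charts and Goward's lemma on exponents

`Good F`: the list `F` of nonnegative integer matrices of determinant `±1` splits the functional
`K ↦ ∏ 1/K_i`.  `goward`: for every nonempty finite set `S` of exponents there is a good list such
that for every matrix `A` in it the images `A κ`, `κ ∈ S`, have a componentwise minimum.
-/

set_option autoImplicit false

namespace Pool.H44.Cube

open Finset

variable {n : ℕ}

/-- Action of a matrix of naturals on an exponent vector. -/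
def act {R : Type*} [CommSemiring R] (A : Matrix (Fin n) (Fin n) ℕ) (c : Fin n → R) :
    Fin n → R := fun l => ∑ i, (A l i : R) * c i

/-- The determinant of a matrix of naturals. -/
def detZ (A : Matrix (Fin n) (Fin n) ℕ) : ℤ := (A.map (Nat.cast : ℕ → ℤ)).det

/-- A list of matrices that splits the functional `∏ 1/K_i`. -/
structure Good (F : List (Matrix (Fin n) (Fin n) ℕ)) : Prop where
  sum : ∀ K : Fin n → ℕ, (∀ i, 0 < K i) →
    ∏ i, ((K i : ℕ) : ℚ)⁻¹ = (F.map fun A => ∏ l, ((act A K l : ℕ) : ℚ)⁻¹).sum
  det : ∀ A ∈ F, detZ A = 1 ∨ detZ A = -1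

theorem act_one {R : Type*} [CommSemiring R] (c : Fin n → R) :
    act (1 : Matrix (Fin n) (Fin n) ℕ) c = c := by
  classical
  funext l
  simp [act, Matrix.one_apply]

theorem act_mul {R : Type*} [CommSemiring R] (A B : Matrix (Fin n) (Fin n) ℕ) (c : Fin n → R) :
    act (A * B) c = act A (act B c) := by
  funext l
  simp only [act, Matrix.mul_apply, Nat.cast_sum, Nat.cast_mul, Finset.mul_sum, Finset.sum_mul]
  rw [Finset.sum_comm]
  refine Finset.sum_congr rfl fun i _ => Finset.sum_congr rfl fun j _ => ?_
  ring

theorem act_add {R : Type*} [CommSemiring R] (A : Matrix (Fin n) (Fin n) ℕ) (c d : Fin n → R) :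
    act A (c + d) = act A c + act A d := by
  funext l
  simp only [act, Pi.add_apply, mul_add, Finset.sum_add_distrib]

theorem act_sub {R : Type*} [CommRing R] (A : Matrix (Fin n) (Fin n) ℕ) (c d : Fin n → R) :
    act A (c - d) = act A c - act A d := by
  funext l
  simp only [act, Pi.sub_apply, mul_sub, Finset.sum_sub_distrib]

theorem act_natCast (A : Matrix (Fin n) (Fin n) ℕ) (K : Fin n → ℕ) (l : Fin n) :
    ((act A K l : ℕ) : ℤ) = act A (fun i => (K i : ℤ)) l := by
  simp [act]

theorem detZ_one : detZ (1 : Matrix (Fin n) (Fin n) ℕ) = 1 := by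
  classical
  have : ((1 : Matrix (Fin n) (Fin n) ℕ).map (Nat.cast : ℕ → ℤ)) = 1 := by
    ext i j
    simp [Matrix.one_apply]
  rw [detZ, this, Matrix.det_one]

theorem detZ_mul (A B : Matrix (Fin n) (Fin n) ℕ) : detZ (A * B) = detZ A * detZ B := by
  have : ((A * B).map (Nat.cast : ℕ → ℤ)) =
      (A.map (Nat.cast : ℕ → ℤ)) * (B.map (Nat.cast : ℕ → ℤ)) := by
    ext i j
    simp [Matrix.mul_apply]
  rw [detZ, this, Matrix.det_mul]
  rfl

/-- A matrix of determinant `≠ 0` maps positive vectors to positive vectors. -/
theorem act_pos {A : Matrix (Fin n) (Fin n) ℕ} (hA : detZ A ≠ 0) {K : Fin n → ℕ}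
    (hK : ∀ i, 0 < K i) (l : Fin n) : 0 < act A K l := by
  by_contra h
  have h0 : act A K l = 0 := by omega
  have h1 : ∀ i, A l i = 0 := by
    intro i
    have h2 := (Finset.sum_eq_zero_iff.1 h0) i (Finset.mem_univ i)
    have h3 : A l i * K i = 0 := by simpa using h2
    rcases Nat.mul_eq_zero.1 h3 with h4 | h4
    · exact h4
    · exact absurd h4 (hK i).ne'
  apply hA
  rw [detZ]
  apply Matrix.det_eq_zero_of_row_eq_zero l
  intro j
  simp [h1 j]

theorem good_nil_one : Good [(1 : Matrix (Fin n) (Fin n) ℕ)] where
  sum := by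
    intro K _
    simp [act_one]
  det := by
    intro A hA
    rw [List.mem_singleton] at hA
    rw [hA]
    exact Or.inl detZ_one

theorem Good.bind {F : List (Matrix (Fin n) (Fin n) ℕ)} (hF : Good F)
    (G : Matrix (Fin n) (Fin n) ℕ → List (Matrix (Fin n) (Fin n) ℕ))
    (hG : ∀ A ∈ F, Good (G A)) : Good (F.flatMap fun A => (G A).map fun B => B * A) where
  sum := by
    intro K hK
    rw [hF.sum K hK, List.flatMap, List.map_flatten, List.sum_flatten]
    simp only [List.map_map]
    congr 1
    apply List.map_congr_left
    intro A hA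
    have hA0 : detZ A ≠ 0 := by
      rcases hF.det A hA with h | h <;> rw [h] <;> norm_num
    rw [(hG A hA).sum (act A K) (fun i => act_pos hA0 hK i)]
    simp only [Function.comp]
    congr 1
    rw [List.map_map]
    apply List.map_congr_left
    intro B _
    simp only [Function.comp, act_mul]
  det := by
    intro C hC
    obtain ⟨A, hA, hC⟩ := List.mem_flatMap.1 hC
    obtain ⟨B, hB, rfl⟩ := List.mem_map.1 hC
    rw [detZ_mul]
    rcases hF.det A hA with h1 | h1 <;> rcases (hG A hA).det B hB with h2 | h2 <;>
      rw [h1, h2] <;> norm_num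

/-- The chart matrix replacing the entry `j` by the sum of the entries `i` and `j`. -/
def chart (i j : Fin n) : Matrix (Fin n) (Fin n) ℕ := 1 + Matrix.single j i 1

theorem act_chart {R : Type*} [CommSemiring R] (i j : Fin n) (c : Fin n → R) :
    act (chart i j) c = Function.update c j (c j + c i) := by
  classical
  funext l
  have h1 : ∀ k, ((chart i j l k : ℕ) : R) =
      (if l = k then 1 else 0) + (if j = l ∧ i = k then 1 else 0) := by
    intro k
    simp only [chart, Matrix.add_apply, Matrix.one_apply, Matrix.single_apply, Nat.cast_add,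
      Nat.cast_ite, Nat.cast_one, Nat.cast_zero]
  simp only [act, h1, add_mul, Finset.sum_add_distrib, ite_mul, one_mul, zero_mul,
    Finset.sum_ite_eq, Finset.mem_univ, if_true]
  by_cases h : l = j
  · subst h
    simp
  · rw [Function.update_of_ne h]
    have : ∀ k, ¬ (j = l ∧ i = k) := fun k hk => h hk.1.symm
    simp [this]

theorem detZ_chart {i j : Fin n} (h : i ≠ j) : detZ (chart i j) = 1 := by
  classical
  have : ((chart i j).map (Nat.cast : ℕ → ℤ)) = Matrix.transvection j i 1 := by
    ext k l
    simp only [chart, Matrix.map_apply, Matrix.add_apply, Matrix.one_apply, Matrix.single_apply,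
      Nat.cast_add, Nat.cast_ite, Nat.cast_one, Nat.cast_zero, Matrix.transvection]
  rw [detZ, this, Matrix.det_transvection_of_ne _ _ h.symm]

theorem good_chart {i j : Fin n} (h : i ≠ j) : Good [chart i j, chart j i] where
  sum := by
    classical
    intro K hK
    simp only [List.map_cons, List.map_nil, List.sum_cons, List.sum_nil, add_zero, act_chart]
    have hi := hK i
    have hj := hK j
    have hi' : (K i : ℚ) ≠ 0 := by exact_mod_cast hi.ne'
    have hj' : (K j : ℚ) ≠ 0 := by exact_mod_cast hj.ne'
    have hij' : (K i : ℚ) + K j ≠ 0 := by exact_mod_cast (by omega : K i + K j ≠ 0)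
    have hij'' : (K j : ℚ) + K i ≠ 0 := by rw [add_comm]; exact hij'
    have key : ∀ K' : Fin n → ℕ, ∏ l, ((K' l : ℕ) : ℚ)⁻¹ =
        ((K' i : ℕ) : ℚ)⁻¹ * (((K' j : ℕ) : ℚ)⁻¹ *
          ∏ l ∈ (Finset.univ.erase i).erase j, ((K' l : ℕ) : ℚ)⁻¹) := by
      intro K'
      rw [← Finset.mul_prod_erase _ _ (Finset.mem_univ i),
        ← Finset.mul_prod_erase (Finset.univ.erase i) _
          (Finset.mem_erase.2 ⟨h.symm, Finset.mem_univ j⟩)]
    rw [key K, key (Function.update K j (K j + K i)), key (Function.update K i (K i + K j))]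
    have e1 : ∏ l ∈ (Finset.univ.erase i).erase j,
        ((Function.update K j (K j + K i) l : ℕ) : ℚ)⁻¹ =
        ∏ l ∈ (Finset.univ.erase i).erase j, ((K l : ℕ) : ℚ)⁻¹ := by
      refine Finset.prod_congr rfl fun l hl => ?_
      rw [Function.update_of_ne (Finset.ne_of_mem_erase hl)]
    have e2 : ∏ l ∈ (Finset.univ.erase i).erase j,
        ((Function.update K i (K i + K j) l : ℕ) : ℚ)⁻¹ =
        ∏ l ∈ (Finset.univ.erase i).erase j, ((K l : ℕ) : ℚ)⁻¹ := by
      refine Finset.prod_congr rfl fun l hl => ?_
      rw [Function.update_of_ne (Finset.ne_of_mem_erase (Finset.mem_of_mem_erase hl))]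
    rw [e1, e2, Function.update_self, Function.update_self, Function.update_of_ne h,
      Function.update_of_ne h.symm]
    push_cast
    field_simp
    ring
  det := by
    intro A hA
    simp only [List.mem_cons, List.not_mem_nil, or_false] at hA
    rcases hA with rfl | rfl
    · exact Or.inl (detZ_chart h)
    · exact Or.inl (detZ_chart h.symm)

/-- A vector of integers all of whose entries have the same sign. -/
def Def (c : Fin n → ℤ) : Prop := (∀ l, 0 ≤ c l) ∨ (∀ l, c l ≤ 0)

theorem Def.act {c : Fin n → ℤ} (h : Def c) (A : Matrix (Fin n) (Fin n) ℕ) :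
    Def (act A c) := by
  rcases h with h | h
  · left
    intro l
    exact Finset.sum_nonneg fun i _ => mul_nonneg (by positivity) (h i)
  · right
    intro l
    exact Finset.sum_nonpos fun i _ => mul_nonpos_of_nonneg_of_nonpos (by positivity) (h i)

/-- Goward's termination, one difference vector. -/
theorem goward_one_aux (s : ℕ) : ∀ (a b : ℕ), a + b = s → ∀ (m : ℕ) (c : Fin n → ℤ),
    (∀ l, c l ≤ a) → (∀ l, -(b : ℤ) ≤ c l) →
    (Finset.univ.filter fun l => c l = a ∨ c l = -(b : ℤ)).card ≤ m →
    ∃ F : List (Matrix (Fin n) (Fin n) ℕ), Good F ∧ ∀ A ∈ F, Def (act A c) := by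
  classical
  induction s using Nat.strong_induction_on with
  | _ s ih =>
  intro a b hab m
  induction m with
  | zero =>
    intro c h1 h2 h3
    -- no entry is extremal
    have h4 : ∀ l, ¬ (c l = a ∨ c l = -(b : ℤ)) := by
      intro l hl
      have : l ∈ Finset.univ.filter fun l => c l = a ∨ c l = -(b : ℤ) := by
        simp only [Finset.mem_filter, Finset.mem_univ, true_and]
        exact hl
      have := Finset.card_pos.2 ⟨l, this⟩
      omega
    rcases Nat.eq_zero_or_pos a with ha | ha
    · refine ⟨[1], good_nil_one, fun A hA => ?_⟩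
      rw [List.mem_singleton.1 hA, act_one]
      right
      intro l
      have := h1 l
      rw [ha] at this
      exact_mod_cast this
    · refine ih (s - 1) (by omega) (a - 1) b (by omega) _ c (fun l => ?_) h2 le_rfl
      have h5 := h1 l
      have h6 := h4 l
      push Not at h6
      have h7 := h6.1
      have h8 : (((a - 1 : ℕ)) : ℤ) = (a : ℤ) - 1 := by
        push_cast [ha]
        ring
      rw [h8]
      omega
  | succ m ihm =>
    intro c h1 h2 h3
    rcases Nat.eq_zero_or_pos a with ha | ha
    · refine ⟨[1], good_nil_one, fun A hA => ?_⟩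
      rw [List.mem_singleton.1 hA, act_one]
      right
      intro l
      have := h1 l
      rw [ha] at this
      exact_mod_cast this
    rcases Nat.eq_zero_or_pos b with hb | hb
    · refine ⟨[1], good_nil_one, fun A hA => ?_⟩
      rw [List.mem_singleton.1 hA, act_one]
      left
      intro l
      have := h2 l
      rw [hb] at this
      simpa using this
    by_cases hi : ∃ i, c i = a
    swap
    · push Not at hi
      refine ih (s - 1) (by omega) (a - 1) b (by omega) _ c (fun l => ?_) h2 le_rfl
      have h5 := h1 l
      have h7 := hi l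
      have h8 : (((a - 1 : ℕ)) : ℤ) = (a : ℤ) - 1 := by
        push_cast [ha]
        ring
      rw [h8]
      omega
    by_cases hj : ∃ j, c j = -(b : ℤ)
    swap
    · push Not at hj
      refine ih (s - 1) (by omega) a (b - 1) (by omega) _ c h1 (fun l => ?_) le_rfl
      have h5 := h2 l
      have h7 := hj l
      have h8 : (((b - 1 : ℕ)) : ℤ) = (b : ℤ) - 1 := by
        push_cast [hb]
        ring
      rw [h8]
      omega
    obtain ⟨i, hi⟩ := hi
    obtain ⟨j, hj⟩ := hj
    have hij : i ≠ j := by
      rintro rfl
      rw [hi] at hj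
      omega
    -- a general step
    have step : ∀ (t : Fin n) (v : ℤ), -(b : ℤ) < v → v < a → (c t = a ∨ c t = -(b : ℤ)) →
        ∃ F : List (Matrix (Fin n) (Fin n) ℕ), Good F ∧
          ∀ A ∈ F, Def (act A (Function.update c t v)) := by
      intro t v hv1 hv2 ht
      apply ihm
      · intro l
        by_cases hl : l = t
        · subst hl
          rw [Function.update_self]
          exact hv2.le
        · rw [Function.update_of_ne hl]
          exact h1 l
      · intro l
        by_cases hl : l = t
        · subst hl
          rw [Function.update_self]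
          exact hv1.le
        · rw [Function.update_of_ne hl]
          exact h2 l
      · have hsub : (Finset.univ.filter fun l => Function.update c t v l = a ∨
            Function.update c t v l = -(b : ℤ)) ⊆
            (Finset.univ.filter fun l => c l = a ∨ c l = -(b : ℤ)).erase t := by
          intro l hl
          simp only [Finset.mem_filter, Finset.mem_univ, true_and] at hl
          have hlt : l ≠ t := by
            rintro rfl
            rw [Function.update_self] at hl
            omega
          rw [Function.update_of_ne hlt] at hl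
          simp only [Finset.mem_erase, Finset.mem_filter, Finset.mem_univ, true_and]
          exact ⟨hlt, hl⟩
        have h9 := Finset.card_le_card hsub
        have h10 : t ∈ Finset.univ.filter fun l => c l = a ∨ c l = -(b : ℤ) := by
          simp only [Finset.mem_filter, Finset.mem_univ, true_and]
          exact ht
        rw [Finset.card_erase_of_mem h10] at h9
        omega
    obtain ⟨F1, hF1, hF1'⟩ := step j (c j + c i) (by omega) (by omega) (Or.inr hj)
    obtain ⟨F2, hF2, hF2'⟩ := step i (c i + c j) (by omega) (by omega) (Or.inl hi)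
    refine ⟨[chart i j, chart j i].flatMap
      (fun A => (if A = chart i j then F1 else F2).map fun B => B * A), ?_, ?_⟩
    · refine (good_chart hij).bind (fun A => if A = chart i j then F1 else F2) ?_
      intro A _
      by_cases h : A = chart i j
      · simp only [h, if_true]; exact hF1
      · simp only [h, if_false]; exact hF2
    · intro C hC
      obtain ⟨A, hA, hC⟩ := List.mem_flatMap.1 hC
      obtain ⟨B, hB, rfl⟩ := List.mem_map.1 hC
      rw [act_mul]
      by_cases h : A = chart i j
      · rw [if_pos h] at hB
        rw [h, act_chart]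
        exact hF1' B hB
      · rw [if_neg h] at hB
        have h' : A = chart j i := by
          simp only [List.mem_cons, List.not_mem_nil, or_false] at hA
          rcases hA with hA | hA
          · exact absurd hA h
          · exact hA
        rw [h', act_chart]
        exact hF2' B hB

theorem goward_one (c : Fin n → ℤ) :
    ∃ F : List (Matrix (Fin n) (Fin n) ℕ), Good F ∧ ∀ A ∈ F, Def (act A c) := by
  classical
  set a : ℕ := ∑ i, (c i).natAbs with ha
  have h : ∀ l, (c l).natAbs ≤ a := fun l =>
    Finset.single_le_sum (f := fun i => (c i).natAbs) (fun i _ => Nat.zero_le _)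
      (Finset.mem_univ l)
  refine goward_one_aux (a + a) a a rfl _ c (fun l => ?_) (fun l => ?_) le_rfl
  · have := h l
    omega
  · have := h l
    omega

theorem goward_list (L : List (Fin n → ℤ)) :
    ∃ F : List (Matrix (Fin n) (Fin n) ℕ), Good F ∧ ∀ A ∈ F, ∀ c ∈ L, Def (act A c) := by
  classical
  induction L with
  | nil => exact ⟨[1], good_nil_one, fun A _ c hc => absurd hc (List.not_mem_nil)⟩
  | cons c0 L ih =>
    obtain ⟨F, hF, hF'⟩ := ih
    choose G hG hG' using fun A : Matrix (Fin n) (Fin n) ℕ => goward_one (act A c0)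
    refine ⟨F.flatMap fun A => (G A).map fun B => B * A, hF.bind G fun A _ => hG A, ?_⟩
    intro C hC c hc
    obtain ⟨A, hA, hC⟩ := List.mem_flatMap.1 hC
    obtain ⟨B, hB, rfl⟩ := List.mem_map.1 hC
    rw [act_mul]
    rcases List.mem_cons.1 hc with rfl | hc
    · exact hG' A B hB
    · exact (hF' A hA c hc).act B

/-- Goward's lemma: after finitely many chart splittings a finite set of exponents has a
componentwise minimum. -/
theorem goward (S : Finset (Fin n → ℕ)) (hS : S.Nonempty) :
    ∃ F : List (Matrix (Fin n) (Fin n) ℕ), Good F ∧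
      ∀ A ∈ F, ∃ κ0 ∈ S, ∀ κ ∈ S, ∀ l, act A κ0 l ≤ act A κ l := by
  classical
  obtain ⟨F, hF, hF'⟩ := goward_list
    ((S ×ˢ S).toList.map fun q => (fun i => (q.1 i : ℤ)) - fun i => (q.2 i : ℤ))
  refine ⟨F, hF, fun A hA => ?_⟩
  obtain ⟨κ0, hκ0, hmin⟩ := S.exists_min_image (fun κ => ∑ l, act A κ l) hS
  refine ⟨κ0, hκ0, fun κ hκ => ?_⟩
  have h1 := hF' A hA ((fun i => (κ i : ℤ)) - fun i => (κ0 i : ℤ)) (by
    refine List.mem_map.2 ⟨(κ, κ0), ?_, rfl⟩
    rw [Finset.mem_toList, Finset.mem_product]
    exact ⟨hκ, hκ0⟩)
  rw [act_sub] at h1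
  rcases h1 with h1 | h1
  · intro l
    have h2 := h1 l
    rw [Pi.sub_apply, ← act_natCast, ← act_natCast] at h2
    omega
  · have h3 : ∀ l ∈ Finset.univ, act A κ l ≤ act A κ0 l := by
      intro l _
      have h2 := h1 l
      rw [Pi.sub_apply, ← act_natCast, ← act_natCast] at h2
      omega
    have h4 := (Finset.sum_eq_sum_iff_of_le h3).1
      (le_antisymm (Finset.sum_le_sum h3) (hmin κ hκ))
    intro l
    rw [h4 l (Finset.mem_univ l)]

end Pool.H44.Cube
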