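import Pool.Agent.H44.Cube.SUB1

/-!
# Cube problem, block SUB, part 2 (helper44): order simplices on exponents
-/

set_option autoImplicit false

namespace Pool.H44.Cube

open Finset

/-- Tail sums. -/
def tail {n : ℕ} {R : Type*} [AddCommMonoid R] (K : Fin n → R) (l : Fin n) : R :=
  ∑ i ∈ Finset.univ.filter (fun i => l ≤ i), K i

theorem tail_zero {n : ℕ} {R : Type*} [AddCommMonoid R] (K : Fin (n + 1) → R) :
    tail K 0 = ∑ i, K i := by
  rw [tail, Finset.filter_true_of_mem (fun i _ => Fin.zero_le i)]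

theorem tail_succ {n : ℕ} {R : Type*} [AddCommMonoid R] (K : Fin (n + 1) → R) (l : Fin n) :
    tail K l.succ = tail (fun i => K i.succ) l := by
  rw [tail, tail]
  rw [Finset.sum_filter, Finset.sum_filter, Fin.sum_univ_succ, if_neg (by simp), zero_add]
  refine Finset.sum_congr rfl fun i _ => ?_
  simp only [Fin.succ_le_succ_iff]

/-- The decomposition of the cube in order simplices, on exponents. -/
theorem order_id {n : ℕ} (K : Fin n → ℚ) (hK : ∀ i, 0 < K i) :
    ∏ i, (K i)⁻¹ = ∑ π : Equiv.Perm (Fin n), ∏ l, (tail (fun i => K (π i)) l)⁻¹ := by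
  induction n with
  | zero =>
    simp
  | succ n ih =>
    rw [← Equiv.sum_comp (Equiv.Perm.decomposeFin (n := n)).symm
      (fun π : Equiv.Perm (Fin (n + 1)) => ∏ l, (tail (fun i => K (π i)) l)⁻¹),
      Fintype.sum_prod_type]
    set T : ℚ := ∑ i, K i with hT
    have hTpos : 0 < T := Finset.sum_pos (fun i _ => hK i) ⟨0, Finset.mem_univ 0⟩
    have hprod : ∀ p : Fin (n + 1),
        ∏ k : Fin n, (K (Equiv.swap 0 p k.succ))⁻¹ = K p * ∏ i, (K i)⁻¹ := by
      intro p
      have h1 : ∏ i, (K (Equiv.swap 0 p i))⁻¹ = ∏ i, (K i)⁻¹ :=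
        Equiv.prod_comp (Equiv.swap 0 p) (fun i => (K i)⁻¹)
      rw [Fin.prod_univ_succ, Equiv.swap_apply_left] at h1
      rw [← h1, ← mul_assoc, mul_inv_cancel₀ (hK p).ne', one_mul]
    have hinner : ∀ p : Fin (n + 1),
        (∑ e : Equiv.Perm (Fin n),
          ∏ l, (tail (fun i => K ((Equiv.Perm.decomposeFin.symm (p, e)) i)) l)⁻¹) =
          T⁻¹ * (K p * ∏ i, (K i)⁻¹) := by
      intro p
      rw [← hprod p, ih (fun k => K (Equiv.swap 0 p k.succ)) (fun k => hK _), Finset.mul_sum]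
      refine Finset.sum_congr rfl fun e _ => ?_
      rw [Fin.prod_univ_succ]
      congr 1
      · rw [tail_zero, Equiv.sum_comp (Equiv.Perm.decomposeFin.symm (p, e)) K]
      · refine Finset.prod_congr rfl fun l _ => ?_
        rw [tail_succ]
        congr 2
        funext i
        rw [Equiv.Perm.decomposeFin_symm_apply_succ]
    simp_rw [hinner]
    rw [← Finset.mul_sum, ← Finset.sum_mul, ← hT, ← mul_assoc, inv_mul_cancel₀ hTpos.ne', one_mul]

variable {n : ℕ}

/-- A list of matrices that splits the cube into order simplices. -/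
structure GoodD (F : List (Matrix (Fin n) (Fin n) ℕ)) : Prop where
  sum : ∀ K : Fin n → ℕ, (∀ i, 0 < K i) →
    ∏ i, ((K i : ℕ) : ℚ)⁻¹ = (F.map fun A => ∏ l, ((tail (act A K) l : ℕ) : ℚ)⁻¹).sum
  det : ∀ A ∈ F, detZ A = 1 ∨ detZ A = -1

/-- Permutation matrix. -/
def pmat (π : Equiv.Perm (Fin n)) : Matrix (Fin n) (Fin n) ℕ := fun l i => if π l = i then 1 else 0

theorem act_pmat {R : Type*} [CommSemiring R] (π : Equiv.Perm (Fin n)) (c : Fin n → R) :
    act (pmat π) c = fun l => c (π l) := by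
  funext l
  simp [act, pmat]

theorem detZ_pmat (π : Equiv.Perm (Fin n)) : detZ (pmat π) = 1 ∨ detZ (pmat π) = -1 := by
  have h : ((pmat π).map (Nat.cast : ℕ → ℤ)) = π.permMatrix ℤ := by
    ext i j
    simp [pmat, Equiv.Perm.permMatrix, PEquiv.toMatrix_apply, eq_comm]
  rw [detZ, h, Matrix.det_permutation]
  rcases Int.units_eq_one_or (Equiv.Perm.sign π) with h | h <;> rw [h]
  · left; rfl
  · right; rfl

theorem Good.toD {F : List (Matrix (Fin n) (Fin n) ℕ)} (hF : Good F) :
    GoodD (F.flatMap fun A =>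
      (Finset.univ : Finset (Equiv.Perm (Fin n))).toList.map fun π => pmat π * A) where
  sum := by
    intro K hK
    rw [hF.sum K hK, List.flatMap, List.map_flatten, List.sum_flatten]
    simp only [List.map_map]
    congr 1
    apply List.map_congr_left
    intro A hA
    have hA0 : detZ A ≠ 0 := by
      rcases hF.det A hA with h | h <;> rw [h] <;> norm_num
    have h1 := order_id (fun i => ((act A K i : ℕ) : ℚ))
      (fun i => by exact_mod_cast act_pos hA0 hK i)
    rw [h1, ← Finset.sum_map_toList]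
    simp only [Function.comp]
    congr 1
    rw [List.map_map]
    apply List.map_congr_left
    intro π _
    simp only [Function.comp, act_mul, act_pmat]
    refine Finset.prod_congr rfl fun l _ => ?_
    rw [tail, tail, Nat.cast_sum]
  det := by
    intro C hC
    obtain ⟨A, hA, hC⟩ := List.mem_flatMap.1 hC
    obtain ⟨π, _, rfl⟩ := List.mem_map.1 hC
    rw [detZ_mul]
    rcases hF.det A hA with h1 | h1 <;> rcases detZ_pmat π with h2 | h2 <;>
      rw [h1, h2] <;> norm_num

/-- Goward's lemma with order simplices. -/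
theorem gowardD (S : Finset (Fin n → ℕ)) (hS : S.Nonempty) :
    ∃ F : List (Matrix (Fin n) (Fin n) ℕ), GoodD F ∧
      ∀ A ∈ F, ∃ κ0 ∈ S, ∀ κ ∈ S, ∀ l, act A κ0 l ≤ act A κ l := by
  obtain ⟨F, hF, hF'⟩ := goward S hS
  refine ⟨_, hF.toD, ?_⟩
  intro C hC
  obtain ⟨A, hA, hC⟩ := List.mem_flatMap.1 hC
  obtain ⟨π, _, rfl⟩ := List.mem_map.1 hC
  obtain ⟨κ0, hκ0, h⟩ := hF' A hA
  refine ⟨κ0, hκ0, fun κ hκ l => ?_⟩
  rw [act_mul, act_mul, act_pmat, act_pmat]
  exact h κ hκ (π l)

end Pool.H44.Cube
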