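import Pool.Agent.H44.Cube.SUB2
import Pool.Agent.H44.Cube.FE1

/-!
# Cube problem, block SUB, part 3 (helper44): polynomial form of the subdivision

`LA n E`: integral over the cube; `JD n E`: integral over the order simplex
`1 ≥ c_0 ≥ c_1 ≥ … ≥ c_{n-1} ≥ 0`; `mono B`: the substitution `x^κ ↦ c^{B κ}`.
-/

set_option autoImplicit false
set_option linter.unusedSectionVars false

namespace Pool.H44.Cube

open MvPolynomial Finset

variable {n : ℕ} {E : Type*} [CommRing E] [Algebra ℚ E]

/-- The functional on polynomials given by its values on monomials. -/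
noncomputable def func (E : Type*) [CommRing E] [Algebra ℚ E] (w : (Fin n →₀ ℕ) → ℚ) :
    MvPolynomial (Fin n) E →ₗ[E] E :=
  (basisMonomials (Fin n) E).constr E fun κ => algebraMap ℚ E (w κ)

theorem func_monomial (w : (Fin n →₀ ℕ) → ℚ) (κ : Fin n →₀ ℕ) (c : E) :
    func E w (monomial κ c) = c * algebraMap ℚ E (w κ) := by
  have h : monomial κ c = c • (basisMonomials (Fin n) E) κ := by
    rw [coe_basisMonomials, smul_monomial, smul_eq_mul, mul_one]
  rw [h, map_smul, func, Module.Basis.constr_basis, smul_eq_mul]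

/-- Integral over the order simplex `1 ≥ c_0 ≥ … ≥ c_{n-1} ≥ 0`. -/
noncomputable def JD (n : ℕ) (E : Type*) [CommRing E] [Algebra ℚ E] :
    MvPolynomial (Fin n) E →ₗ[E] E :=
  func E fun κ => ∏ l, (tail (fun i => ((κ i + 1 : ℕ) : ℚ)) l)⁻¹

theorem JD_monomial (κ : Fin n →₀ ℕ) (c : E) : JD n E (monomial κ c) =
    c * algebraMap ℚ E (∏ l, (tail (fun i => ((κ i + 1 : ℕ) : ℚ)) l)⁻¹) :=
  func_monomial _ κ c

theorem JD_map {A B : Type*} [CommRing A] [Algebra ℚ A] [CommRing B] [Algebra ℚ B]
    (φ : A →+* B) (P : MvPolynomial (Fin n) A) : JD n B (map φ P) = φ (JD n A P) := by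
  induction P using MvPolynomial.induction_on' with
  | monomial κ c =>
    rw [map_monomial, JD_monomial, JD_monomial, map_mul]
    congr 1
    exact (RingHom.map_rat_algebraMap φ _).symm
  | add p q hp hq => rw [map_add, map_add, hp, hq, map_add, map_add]

/-- The monomial `X^v`. -/
noncomputable def mon (E : Type*) [CommRing E] (v : Fin n → ℕ) : MvPolynomial (Fin n) E :=
  monomial (Finsupp.equivFunOnFinite.symm v) 1

omit [Algebra ℚ E] in
theorem mon_eq (v : Fin n → ℕ) : mon E v = ∏ l, X l ^ v l := by
  rw [mon, monomial_eq, C_1, one_mul, Finsupp.prod_fintype]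
  · rfl
  · intro i
    exact pow_zero _

omit [Algebra ℚ E] in
theorem mon_add (v w : Fin n → ℕ) : mon E (v + w) = mon E v * mon E w := by
  rw [mon_eq, mon_eq, mon_eq, ← Finset.prod_mul_distrib]
  refine Finset.prod_congr rfl fun l _ => ?_
  rw [Pi.add_apply, pow_add]

omit [Algebra ℚ E] in
theorem mon_zero : mon E (0 : Fin n → ℕ) = 1 := by
  rw [mon_eq]
  simp

/-- The substitution `x^κ ↦ c^{B κ}`. -/
noncomputable def mono (E : Type*) [CommRing E] (B : Matrix (Fin n) (Fin n) ℕ) :
    MvPolynomial (Fin n) E →ₐ[E] MvPolynomial (Fin n) E :=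
  aeval fun i => mon E fun l => B l i

omit [Algebra ℚ E] in
theorem mono_mon (B : Matrix (Fin n) (Fin n) ℕ) (v : Fin n → ℕ) :
    mono E B (mon E v) = mon E (act B v) := by
  rw [mon_eq, map_prod, mon_eq]
  have h1 : ∀ i, mono E B (X i ^ v i) = ∏ l, X l ^ (B l i * v i) := by
    intro i
    rw [map_pow, mono, aeval_X, mon_eq, ← Finset.prod_pow]
    refine Finset.prod_congr rfl fun l _ => ?_
    rw [← pow_mul]
  simp_rw [h1]
  rw [Finset.prod_comm]
  refine Finset.prod_congr rfl fun l _ => ?_
  rw [Finset.prod_pow_eq_pow_sum]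
  simp [act]

omit [Algebra ℚ E] in
theorem mono_monomial (B : Matrix (Fin n) (Fin n) ℕ) (κ : Fin n →₀ ℕ) (c : E) :
    mono E B (monomial κ c) = monomial (Finsupp.equivFunOnFinite.symm (act B κ)) c := by
  have h : monomial κ c = c • mon E (κ : Fin n → ℕ) := by
    rw [mon, smul_monomial, smul_eq_mul, mul_one]
    congr 1
    ext
    simp
  rw [h, map_smul, mono_mon, mon, smul_monomial, smul_eq_mul, mul_one]

/-- The weight `c^{B 1 - 1}`. -/
noncomputable def wt (E : Type*) [CommRing E] (B : Matrix (Fin n) (Fin n) ℕ) :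
    MvPolynomial (Fin n) E := mon E fun l => act B (fun _ => 1) l - 1

/-- The decomposition of the cube integral in order simplices after monomial substitutions. -/
theorem LA_eq_sum {F : List (Matrix (Fin n) (Fin n) ℕ)} (hF : GoodD F)
    (P : MvPolynomial (Fin n) E) :
    LA n E P = (F.map fun B => JD n E (wt E B * mono E B P)).sum := by
  induction P using MvPolynomial.induction_on' with
  | monomial κ c =>
    have h1 := hF.sum (fun i => κ i + 1) (fun i => Nat.succ_pos _)
    rw [LA_monomial, h1, map_list_sum, List.map_map, ← List.sum_map_mul_left]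
    congr 1
    apply List.map_congr_left
    intro B hB
    have hB0 : detZ B ≠ 0 := by
      rcases hF.det B hB with h | h <;> rw [h] <;> norm_num
    rw [wt, mono_monomial, mon, monomial_mul, one_mul, JD_monomial]
    simp only [Function.comp]
    congr 3
    funext l
    rw [tail, tail, Nat.cast_sum]
    congr 1
    refine Finset.sum_congr rfl fun i _ => ?_
    congr 1
    have h2 := act_pos hB0 (K := fun _ => 1) (fun _ => Nat.one_pos) i
    have h3 : act B (fun i => κ i + 1) i = act B (κ : Fin n → ℕ) i + act B (fun _ => 1) i := by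
      exact congrFun (act_add B (κ : Fin n → ℕ) (fun _ => 1)) i
    rw [h3]
    simp only [Finsupp.coe_add, Pi.add_apply, Finsupp.equivFunOnFinite_symm_apply_apply]
    omega
  | add p q hp hq =>
    rw [map_add, hp, hq, ← List.sum_map_add]
    congr 1
    apply List.map_congr_left
    intro B _
    rw [map_add, mul_add, map_add]

end Pool.H44.Cube
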