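import Pool.Agent.H44.Cube.SUB3

/-!
# Cube problem, block SUB, part 4 (helper44): cutting the cube in `2^n` vertex boxes
-/

set_option autoImplicit false

namespace Pool.H44.Cube

open Finset

variable {E : Type*} [CommRing E] [Algebra ℚ E]

/-- Integral over `[0,1]` of a univariate polynomial. -/
noncomputable def I1 (E : Type*) [CommRing E] [Algebra ℚ E] : Polynomial E →ₗ[E] E :=
  (Polynomial.basisMonomials E).constr E fun k => algebraMap ℚ E (((k + 1 : ℕ) : ℚ))⁻¹

theorem I1_monomial (k : ℕ) (c : E) :
    I1 E (Polynomial.monomial k c) = c * algebraMap ℚ E (((k + 1 : ℕ) : ℚ))⁻¹ := by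
  have h : Polynomial.monomial k c = c • (Polynomial.basisMonomials E) k := by
    rw [Polynomial.coe_basisMonomials, Polynomial.smul_monomial, smul_eq_mul, mul_one]
  rw [h, map_smul, I1, Module.Basis.constr_basis, smul_eq_mul]

theorem I1_derivative (Q : Polynomial E) :
    I1 E (Polynomial.derivative Q) = Q.eval 1 - Q.eval 0 := by
  induction Q using Polynomial.induction_on' with
  | monomial k c =>
    rw [Polynomial.derivative_monomial, I1_monomial, Polynomial.eval_monomial,
      Polynomial.eval_monomial, one_pow, mul_one]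
    rcases Nat.eq_zero_or_pos k with hk | hk
    · subst hk
      simp
    · obtain ⟨j, rfl⟩ : ∃ j, k = j + 1 := ⟨k - 1, by omega⟩
      rw [zero_pow (Nat.succ_ne_zero j), mul_zero, sub_zero, Nat.add_sub_cancel, mul_assoc,
        ← map_natCast (algebraMap ℚ E), ← map_mul, mul_inv_cancel₀ (by positivity), map_one,
        mul_one]
  | add p q hp hq =>
    rw [map_add, map_add, hp, hq, Polynomial.eval_add, Polynomial.eval_add]
    ring

theorem I1_box (θ : E) (k : ℕ) :
    θ * I1 E ((Polynomial.C θ * Polynomial.X) ^ k) +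
      (1 - θ) * I1 E ((1 - Polynomial.C (1 - θ) * Polynomial.X) ^ k) =
      algebraMap ℚ E (((k + 1 : ℕ) : ℚ))⁻¹ := by
  have h1 : θ * I1 E ((Polynomial.C θ * Polynomial.X) ^ k) =
      θ ^ (k + 1) * algebraMap ℚ E (((k + 1 : ℕ) : ℚ))⁻¹ := by
    have : (Polynomial.C θ * Polynomial.X) ^ k = Polynomial.monomial k (θ ^ k) := by
      rw [mul_pow, ← map_pow, Polynomial.C_mul_X_pow_eq_monomial]
    rw [this, I1_monomial, pow_succ]
    ring
  have h2 : (1 - θ) * I1 E ((1 - Polynomial.C (1 - θ) * Polynomial.X) ^ k) =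
      (1 - θ ^ (k + 1)) * algebraMap ℚ E (((k + 1 : ℕ) : ℚ))⁻¹ := by
    have hd := I1_derivative (E := E)
      (-((1 - Polynomial.C (1 - θ) * Polynomial.X) ^ (k + 1)))
    have hd' : Polynomial.derivative
        (-((1 - Polynomial.C (1 - θ) * Polynomial.X) ^ (k + 1))) =
        (((k + 1 : ℕ) : E) * (1 - θ)) • ((1 - Polynomial.C (1 - θ) * Polynomial.X) ^ k) := by
      rw [Polynomial.derivative_neg, Polynomial.derivative_pow, Nat.add_sub_cancel,
        Polynomial.derivative_sub, Polynomial.derivative_one, Polynomial.derivative_mul,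
        Polynomial.derivative_C, Polynomial.derivative_X, Polynomial.smul_eq_C_mul]
      simp only [zero_mul, mul_one, zero_add, zero_sub, map_mul]
      ring
    rw [hd', map_smul] at hd
    have he1 : Polynomial.eval 1 (-((1 - Polynomial.C (1 - θ) * Polynomial.X) ^ (k + 1))) =
        -θ ^ (k + 1) := by
      simp
    have he0 : Polynomial.eval 0 (-((1 - Polynomial.C (1 - θ) * Polynomial.X) ^ (k + 1))) =
        -1 := by
      simp
    rw [he1, he0, smul_eq_mul] at hd
    have hinv : ((k + 1 : ℕ) : E) * algebraMap ℚ E (((k + 1 : ℕ) : ℚ))⁻¹ = 1 := by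
      rw [← map_natCast (algebraMap ℚ E), ← map_mul, mul_inv_cancel₀ (by positivity), map_one]
    calc (1 - θ) * I1 E ((1 - Polynomial.C (1 - θ) * Polynomial.X) ^ k)
        = (((k + 1 : ℕ) : E) * algebraMap ℚ E (((k + 1 : ℕ) : ℚ))⁻¹) * ((1 - θ) *
          I1 E ((1 - Polynomial.C (1 - θ) * Polynomial.X) ^ k)) := by rw [hinv, one_mul]
      _ = algebraMap ℚ E (((k + 1 : ℕ) : ℚ))⁻¹ * (((k + 1 : ℕ) : E) * (1 - θ) *
          I1 E ((1 - Polynomial.C (1 - θ) * Polynomial.X) ^ k)) := by ring
      _ = _ := by rw [hd]; ring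
  rw [h1, h2]
  ring

open MvPolynomial in
/-- The functional of a product of univariate polynomials in different variables. -/
theorem LA_prod {n : ℕ} (q : Fin n → Polynomial E) :
    LA n E (∏ i, Polynomial.aeval (X i : MvPolynomial (Fin n) E) (q i)) = ∏ i, I1 E (q i) := by
  classical
  -- expand every factor
  have h1 : ∀ i, Polynomial.aeval (X i : MvPolynomial (Fin n) E) (q i) =
      ∑ k ∈ Finset.range ((q i).natDegree + 1), C ((q i).coeff k) * X i ^ k := by
    intro i
    rw [Polynomial.aeval_eq_sum_range]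
    refine Finset.sum_congr rfl fun k _ => ?_
    rw [smul_eq_C_mul]
  have h2 : ∀ i, I1 E (q i) = ∑ k ∈ Finset.range ((q i).natDegree + 1),
      (q i).coeff k * algebraMap ℚ E (((k + 1 : ℕ) : ℚ))⁻¹ := by
    intro i
    conv_lhs => rw [(q i).as_sum_range]
    rw [map_sum]
    exact Finset.sum_congr rfl fun k _ => I1_monomial k _
  simp_rw [h1, h2]
  rw [Finset.prod_univ_sum, Finset.prod_univ_sum, map_sum]
  refine Finset.sum_congr rfl fun κ _ => ?_
  rw [Finset.prod_mul_distrib, Finset.prod_mul_distrib, ← map_prod, ← map_prod]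
  have h3 : (∏ i, X i ^ κ i : MvPolynomial (Fin n) E) = mon E κ := (mon_eq κ).symm
  rw [h3, mon, C_mul_monomial, mul_one, LA_monomial]
  rfl

open MvPolynomial in
/-- The substitution for the vertex box `ε`. -/
noncomputable def bsub {n : ℕ} (θ : Fin n → E) (ε : Fin n → Bool) :
    MvPolynomial (Fin n) E →ₐ[E] MvPolynomial (Fin n) E :=
  aeval fun i => if ε i then 1 - C (1 - θ i) * X i else C (θ i) * X i

/-- The volume of the vertex box `ε`. -/
def bvol {n : ℕ} (θ : Fin n → E) (ε : Fin n → Bool) : E :=
  ∏ i, if ε i then 1 - θ i else θ i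

open MvPolynomial in
/-- Cutting the cube by the hyperplanes `x_i = θ_i`. -/
theorem LA_box {n : ℕ} (θ : Fin n → E) (P : MvPolynomial (Fin n) E) :
    LA n E P = ∑ ε : Fin n → Bool, bvol θ ε * LA n E (bsub θ ε P) := by
  classical
  induction P using MvPolynomial.induction_on' with
  | monomial κ c =>
    have h0 : monomial κ c = c • mon E (κ : Fin n → ℕ) := by
      rw [mon, smul_monomial, smul_eq_mul, mul_one]
      congr 1
      ext
      simp
    have hq : ∀ ε : Fin n → Bool, bsub θ ε (mon E (κ : Fin n → ℕ)) =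
        ∏ i, Polynomial.aeval (X i : MvPolynomial (Fin n) E)
          ((if ε i then 1 - Polynomial.C (1 - θ i) * Polynomial.X
            else Polynomial.C (θ i) * Polynomial.X) ^ κ i) := by
      intro ε
      rw [mon_eq, map_prod]
      refine Finset.prod_congr rfl fun i _ => ?_
      rw [map_pow, map_pow, bsub, aeval_X]
      congr 1
      by_cases h : ε i
      · simp [h]
      · simp [h]
    have h1 : ∀ ε : Fin n → Bool, bvol θ ε * LA n E (bsub θ ε (monomial κ c)) =
        c * ∏ i, ((if ε i then 1 - θ i else θ i) * I1 E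
          ((if ε i then 1 - Polynomial.C (1 - θ i) * Polynomial.X
            else Polynomial.C (θ i) * Polynomial.X) ^ κ i)) := by
      intro ε
      rw [h0, map_smul, map_smul, hq, LA_prod, Finset.prod_mul_distrib, bvol, smul_eq_mul]
      ring
    simp_rw [h1]
    rw [← Finset.mul_sum]
    have h2 := Finset.prod_univ_sum (fun _ : Fin n => (Finset.univ : Finset Bool))
      (fun i b => ((if b then 1 - θ i else θ i) * I1 E
          ((if b then 1 - Polynomial.C (1 - θ i) * Polynomial.X
            else Polynomial.C (θ i) * Polynomial.X) ^ κ i)))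
    rw [Fintype.piFinset_univ] at h2
    rw [← h2, LA_monomial, map_prod]
    congr 1
    refine Finset.prod_congr rfl fun i _ => ?_
    rw [Fintype.sum_bool]
    simp only [if_true, Bool.false_eq_true, if_false]
    rw [← I1_box (θ i) (κ i)]
    ring
  | add p q hp hq =>
    rw [map_add, hp, hq, ← Finset.sum_add_distrib]
    refine Finset.sum_congr rfl fun ε _ => ?_
    rw [map_add, map_add]
    ring

end Pool.H44.Cube
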