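import Pool.Agent.H44.Cube.SUB5

/-!
# Cube problem, block SUB, part 6 (helper44): the output of the block

`sub`: for `0 ≠ f ∈ K[x]` there are finitely many cells `s` (vertex `ε s`, matrix `B s` of natural
numbers with determinant `± 1`) such that the exponents of `f` at the vertex `ε s` have a smallest
image `B s κ0`, and for every field `E ⊇ K`, all `θ ∈ E^n` and all `m`
`∫_cube f^m = ∑_s vol_s * JD (c^{B 1 - 1} * G_s^m)`, `G_s = ∑_κ a_κ ϑ^κ c^{B κ}`.
`subz`: the same in homogeneous coordinates.
-/

set_option autoImplicit false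

namespace Pool.H44.Cube

open MvPolynomial Finset

variable {n : ℕ}

/-- The polynomial in the coordinates at the vertex `ε`. -/
noncomputable def flip (ε : Fin n → Bool) {K : Type*} [CommRing K] (f : MvPolynomial (Fin n) K) :
    MvPolynomial (Fin n) K := aeval (fun i => if ε i then 1 - X i else X i) f

theorem flip_flip (ε : Fin n → Bool) {K : Type*} [CommRing K] (f : MvPolynomial (Fin n) K) :
    flip ε (flip ε f) = f := by
  have h : ((aeval (fun i => if ε i then 1 - X i else X i) :
      MvPolynomial (Fin n) K →ₐ[K] MvPolynomial (Fin n) K).comp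
      (aeval (fun i => if ε i then 1 - X i else X i))) = AlgHom.id K _ := by
    apply MvPolynomial.algHom_ext
    intro i
    rw [AlgHom.comp_apply, aeval_X]
    by_cases h : ε i
    · simp [h]
    · simp [h]
  exact DFunLike.congr_fun h f

theorem flip_ne_zero (ε : Fin n → Bool) {K : Type*} [CommRing K] {f : MvPolynomial (Fin n) K}
    (hf : f ≠ 0) : flip ε f ≠ 0 := by
  intro h
  apply hf
  rw [← flip_flip ε f, h, flip, map_zero]

/-- The side lengths of the vertex box `ε`. -/
def side {E : Type*} [CommRing E] (θ : Fin n → E) (ε : Fin n → Bool) : Fin n → E :=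
  fun i => if ε i then 1 - θ i else θ i

theorem bvol_eq {E : Type*} [CommRing E] (θ : Fin n → E) (ε : Fin n → Bool) :
    bvol θ ε = ∏ i, side θ ε i := rfl

/-- The polynomial of a cell: `∑_κ a_κ ϑ^κ c^{B κ}`, `a_κ` the coefficients of `g`. -/
noncomputable def cellG {K E : Type*} [CommRing K] [CommRing E] (j : K →+* E) (ϑ : Fin n → E)
    (B : Matrix (Fin n) (Fin n) ℕ) (g : MvPolynomial (Fin n) K) : MvPolynomial (Fin n) E :=
  ∑ κ ∈ g.support, C (j (g.coeff κ) * ∏ i, ϑ i ^ κ i) * mon E (act B (κ : Fin n → ℕ))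

theorem cellG_eq {K E : Type*} [CommRing K] [CommRing E] (j : K →+* E) (θ : Fin n → E)
    (ε : Fin n → Bool) (B : Matrix (Fin n) (Fin n) ℕ) (f : MvPolynomial (Fin n) K) :
    mono E B (bsub θ ε (map j f)) = cellG j (side θ ε) B (flip ε f) := by
  have h1 : bsub θ ε (map j f) =
      (aeval (fun i => C (side θ ε i) * X i) : MvPolynomial (Fin n) E →ₐ[E] _)
        (map j (flip ε f)) := by
    have h2 : ((bsub θ ε : MvPolynomial (Fin n) E →ₐ[E] MvPolynomial (Fin n) E) :
        MvPolynomial (Fin n) E →+* MvPolynomial (Fin n) E).comp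
        (map j) = (((aeval (fun i => C (side θ ε i) * X i) :
          MvPolynomial (Fin n) E →ₐ[E] MvPolynomial (Fin n) E) :
          MvPolynomial (Fin n) E →+* MvPolynomial (Fin n) E).comp (map j)).comp
          ((aeval (fun i => if ε i then (1 : MvPolynomial (Fin n) K) - X i else X i) :
            MvPolynomial (Fin n) K →ₐ[K] MvPolynomial (Fin n) K) :
              MvPolynomial (Fin n) K →+* MvPolynomial (Fin n) K) := by
      apply MvPolynomial.ringHom_ext
      · intro r
        simp [bsub]
      · intro i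
        simp only [RingHom.comp_apply, map_X, RingHom.coe_coe, bsub, aeval_X]
        by_cases h : ε i
        · simp [h, side]
        · simp [h, side]
    exact DFunLike.congr_fun h2 f
  rw [h1]
  set g := flip ε f
  conv_lhs => rw [g.as_sum]
  simp only [map_sum, map_monomial]
  rw [cellG]
  refine Finset.sum_congr rfl fun κ _ => ?_
  have h3 : (aeval (fun i => C (side θ ε i) * X i) : MvPolynomial (Fin n) E →ₐ[E] _)
      (monomial κ (j (g.coeff κ))) =
      C (j (g.coeff κ) * ∏ i, side θ ε i ^ κ i) * mon E (κ : Fin n → ℕ) := by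
    rw [aeval_monomial, mon_eq, Finsupp.prod_fintype _ _ (fun i => pow_zero _)]
    simp only [mul_pow, Finset.prod_mul_distrib]
    rw [algebraMap_eq, map_mul, map_prod]
    simp only [map_pow]
    ring
  rw [h3, map_mul, mono_mon]
  congr 1
  exact AlgHom.commutes (mono E B) _

/-- Output of block SUB in the coordinates of the order simplices. -/
theorem sub {K : Type*} [Field K] [Algebra ℚ K] (f : MvPolynomial (Fin n) K) (hf : f ≠ 0) :
    ∃ (N : ℕ) (ε : Fin N → Fin n → Bool) (B : Fin N → Matrix (Fin n) (Fin n) ℕ),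
      (∀ s, detZ (B s) = 1 ∨ detZ (B s) = -1) ∧
      (∀ s, ∃ κ0 ∈ (flip (ε s) f).support, ∀ κ ∈ (flip (ε s) f).support, ∀ l,
        act (B s) (κ0 : Fin n → ℕ) l ≤ act (B s) (κ : Fin n → ℕ) l) ∧
      ∀ (E : Type*) [CommRing E] [Algebra ℚ E] (j : K →+* E) (θ : Fin n → E) (m : ℕ),
        j (LA n K (f ^ m)) = ∑ s, bvol θ (ε s) *
          JD n E (wt E (B s) * cellG j (side θ (ε s)) (B s) (flip (ε s) f) ^ m) := by
  classical
  have hS : ∀ ε : Fin n → Bool, (((flip ε f).support.image
      fun κ : Fin n →₀ ℕ => (⇑κ : Fin n → ℕ)) : Finset (Fin n → ℕ)).Nonempty := by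
    intro ε
    rw [Finset.image_nonempty]
    exact MvPolynomial.support_nonempty.2 (flip_ne_zero ε hf)
  choose F hF hF' using fun ε => gowardD _ (hS ε)
  set L : List ((Fin n → Bool) × Matrix (Fin n) (Fin n) ℕ) :=
    (Finset.univ : Finset (Fin n → Bool)).toList.flatMap fun ε => (F ε).map fun B => (ε, B)
    with hL
  have hmem' : ∀ q ∈ L, q.2 ∈ F q.1 := by
    intro q h1
    obtain ⟨ε, _, h2⟩ := List.mem_flatMap.1 h1
    obtain ⟨B, hB, h3⟩ := List.mem_map.1 h2
    rw [← h3]
    exact hB
  have hmem : ∀ s : Fin L.length, (L.get s).2 ∈ F (L.get s).1 :=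
    fun s => hmem' _ (List.get_mem L s)
  refine ⟨L.length, fun s => (L.get s).1, fun s => (L.get s).2, fun s => (hF _).det _ (hmem s),
    fun s => ?_, ?_⟩
  · obtain ⟨κ', hκ', h⟩ := hF' _ _ (hmem s)
    obtain ⟨κ0, hκ0, rfl⟩ := Finset.mem_image.1 hκ'
    exact ⟨κ0, hκ0, fun κ hκ => h _ (Finset.mem_image_of_mem _ hκ)⟩
  · intro E _ _ j θ m
    rw [← LA_map, map_pow, LA_box θ, Fin.sum_univ_def]
    have h1 : ∀ ε : Fin n → Bool, bvol θ ε * LA n E (bsub θ ε (map j f ^ m)) =
        ((F ε).map fun B => bvol θ ε *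
          JD n E (wt E B * cellG j (side θ ε) B (flip ε f) ^ m)).sum := by
      intro ε
      rw [LA_eq_sum (hF ε), ← List.sum_map_mul_left]
      congr 1
      apply List.map_congr_left
      intro B _
      rw [map_pow, map_pow, cellG_eq]
    simp_rw [h1]
    set φ : (Fin n → Bool) × Matrix (Fin n) (Fin n) ℕ → E := fun q => bvol θ q.1 *
      JD n E (wt E q.2 * cellG j (side θ q.1) q.2 (flip q.1 f) ^ m) with hφ
    have h2 : ((List.finRange L.length).map fun s => φ (L.get s)).sum = (L.map φ).sum := by
      congr 1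
      have h3 : (List.finRange L.length).map L.get = L := by
        rw [← List.ofFn_eq_map, List.ofFn_get]
      conv_rhs => rw [← h3]
      rw [List.map_map]
      rfl
    rw [← Finset.sum_map_toList]
    change _ = ((List.finRange L.length).map fun s => φ (L.get s)).sum
    rw [h2, hL, List.flatMap, List.map_flatten, List.sum_flatten]
    simp only [List.map_map]
    congr 1
    apply List.map_congr_left
    intro ε _
    simp only [Function.comp, List.map_map]
    rfl

end Pool.H44.Cube
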