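import Pool.Agent.H44.Cube.SUB6

/-!
# Cube problem, block SUB, part 7 (helper44)

`subz`: the output of block SUB in homogeneous coordinates.
`act_inj`: a matrix of determinant `± 1` acts injectively on exponents.
`cellG_leading`: for side lengths `ϑ_i = b_i * τ^{w_i}`, `w_i` the column sums of `B`, the cell
polynomial is `a * τ^{|μ|} * (c^μ + ∑ g_κ τ^{|Bκ| - |μ|} c^{Bκ})`, `μ = B κ0`.
-/

set_option autoImplicit false

namespace Pool.H44.Cube

open MvPolynomial Finset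

variable {n : ℕ}

/-- Interior weight of the cell: `z_0 ⋯ z_n * c^{B 1 - 1} * (z_0 + ⋯ + z_n)^e`, of degree `D`. -/
noncomputable def cellW (n : ℕ) (E : Type*) [CommRing E] (D : ℕ)
    (B : Matrix (Fin n) (Fin n) ℕ) : MvPolynomial (Fin (n + 1)) E :=
  PZ (n + 1) E * hz n E (D - (n + 1)) (wt E B)

/-- The homogenised cell polynomial, of degree `D`. -/
noncomputable def cellN {K E : Type*} [CommRing K] [CommRing E] (D : ℕ) (j : K →+* E)
    (ϑ : Fin n → E) (B : Matrix (Fin n) (Fin n) ℕ) (g : MvPolynomial (Fin n) K) :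
    MvPolynomial (Fin (n + 1)) E := hz n E D (cellG j ϑ B g)

/-- Output of block SUB in homogeneous coordinates. -/
theorem subz {K : Type*} [Field K] [Algebra ℚ K] (f : MvPolynomial (Fin n) K) (hf : f ≠ 0) :
    ∃ (N : ℕ) (ε : Fin N → Fin n → Bool) (B : Fin N → Matrix (Fin n) (Fin n) ℕ),
      (∀ s, detZ (B s) = 1 ∨ detZ (B s) = -1) ∧
      (∀ s, ∃ κ0 ∈ (flip (ε s) f).support, ∀ κ ∈ (flip (ε s) f).support, ∀ l,
        act (B s) (κ0 : Fin n → ℕ) l ≤ act (B s) (κ : Fin n → ℕ) l) ∧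
      ∀ (E : Type*) [CommRing E] [Algebra ℚ E] (j : K →+* E) (θ : Fin n → E) (D m : ℕ),
        j (LA n K (f ^ m)) = ∑ s, bvol θ (ε s) *
          IZ (n + 1) E (cellW n E D (B s) *
            cellN D j (side θ (ε s)) (B s) (flip (ε s) f) ^ m) := by
  obtain ⟨N, ε, B, h1, h2, h3⟩ := sub f hf
  refine ⟨N, ε, B, h1, h2, fun E _ _ j θ D m => ?_⟩
  rw [h3 E j θ m]
  refine Finset.sum_congr rfl fun s _ => ?_
  rw [cellW, cellN, mul_assoc, IZ_hz]

/-- A matrix of determinant `± 1` acts injectively. -/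
theorem act_inj {B : Matrix (Fin n) (Fin n) ℕ} (hB : detZ B = 1 ∨ detZ B = -1)
    {κ κ' : Fin n → ℕ} (h : act B κ = act B κ') : κ = κ' := by
  have hdet : (B.map (Nat.cast : ℕ → ℤ)).det ≠ 0 := by
    rw [detZ] at hB
    rcases hB with h | h <;> rw [h] <;> norm_num
  have h1 : (B.map (Nat.cast : ℕ → ℤ)).mulVec ((fun i => (κ i : ℤ)) - fun i => (κ' i : ℤ)) = 0 := by
    rw [Matrix.mulVec_sub, sub_eq_zero]
    funext l
    have h2 := congrFun h l
    have h3 : ((act B κ l : ℕ) : ℤ) = ((act B κ' l : ℕ) : ℤ) := by rw [h2]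
    simpa [act, Matrix.mulVec, dotProduct] using h3
  have h2 := Matrix.eq_zero_of_mulVec_eq_zero hdet h1
  funext i
  have h3 := congrFun h2 i
  simp only [Pi.sub_apply, Pi.zero_apply] at h3
  omega

/-- Total degree of the image of an exponent. -/
def tdeg (v : Fin n → ℕ) : ℕ := ∑ i, v i

/-- Column sums. -/
def colw (B : Matrix (Fin n) (Fin n) ℕ) (i : Fin n) : ℕ := ∑ l, B l i

theorem tdeg_act (B : Matrix (Fin n) (Fin n) ℕ) (κ : Fin n → ℕ) :
    tdeg (act B κ) = ∑ i, colw B i * κ i := by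
  simp only [tdeg, act, colw, Finset.sum_mul]
  rw [Finset.sum_comm]
  simp

/-- The leading term of a cell polynomial at a vertex. -/
theorem cellG_leading {K E : Type*} [Field K] [Field E] (j : K →+* E) (b : Fin n → E) (τ : E)
    (hb : ∀ i, b i ≠ 0) (B : Matrix (Fin n) (Fin n) ℕ) (g : MvPolynomial (Fin n) K)
    (κ0 : Fin n →₀ ℕ) (hκ0 : κ0 ∈ g.support)
    (hmin : ∀ κ ∈ g.support, ∀ l, act B (κ0 : Fin n → ℕ) l ≤ act B (κ : Fin n → ℕ) l) :
    cellG j (fun i => b i * τ ^ colw B i) B g =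
      C (j (g.coeff κ0) * (∏ i, b i ^ κ0 i) * τ ^ tdeg (act B (κ0 : Fin n → ℕ))) *
        (mon E (act B (κ0 : Fin n → ℕ)) + ∑ κ ∈ g.support.erase κ0,
          C (j (g.coeff κ) * (j (g.coeff κ0))⁻¹ * ((∏ i, b i ^ κ i) * (∏ i, b i ^ κ0 i)⁻¹) *
            τ ^ (tdeg (act B (κ : Fin n → ℕ)) - tdeg (act B (κ0 : Fin n → ℕ)))) *
          mon E (act B (κ : Fin n → ℕ))) := by
  classical
  have hpow : ∀ κ : Fin n →₀ ℕ, ∏ i, (b i * τ ^ colw B i) ^ κ i =
      (∏ i, b i ^ κ i) * τ ^ tdeg (act B (κ : Fin n → ℕ)) := by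
    intro κ
    rw [tdeg_act, ← Finset.prod_pow_eq_pow_sum, ← Finset.prod_mul_distrib]
    refine Finset.prod_congr rfl fun i _ => ?_
    rw [mul_pow, ← pow_mul]
  have hc0 : j (g.coeff κ0) ≠ 0 := by
    rw [map_ne_zero]
    exact mem_support_iff.1 hκ0
  have hb0 : ∏ i, b i ^ κ0 i ≠ 0 := Finset.prod_ne_zero_iff.2 fun i _ => pow_ne_zero _ (hb i)
  rw [cellG, ← Finset.add_sum_erase _ _ hκ0, mul_add, Finset.mul_sum]
  congr 1
  · rw [hpow]
    congr 2
    ring
  · refine Finset.sum_congr rfl fun κ hκ => ?_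
    have hκ' := Finset.mem_of_mem_erase hκ
    have hle : tdeg (act B (κ0 : Fin n → ℕ)) ≤ tdeg (act B (κ : Fin n → ℕ)) :=
      Finset.sum_le_sum fun l _ => hmin κ hκ' l
    rw [hpow]
    conv_rhs => rw [← mul_assoc, ← C_mul]
    congr 2
    have h1 : τ ^ tdeg (act B (κ : Fin n → ℕ)) = τ ^ tdeg (act B (κ0 : Fin n → ℕ)) *
        τ ^ (tdeg (act B (κ : Fin n → ℕ)) - tdeg (act B (κ0 : Fin n → ℕ))) := by
      rw [← pow_add]
      congr 1
      omega
    rw [h1]
    field_simp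

/-- Different exponents have different total degree at the vertex. -/
theorem tdeg_lt {B : Matrix (Fin n) (Fin n) ℕ} (hB : detZ B = 1 ∨ detZ B = -1)
    {κ0 κ : Fin n →₀ ℕ} (hne : κ ≠ κ0)
    (hmin : ∀ l, act B (κ0 : Fin n → ℕ) l ≤ act B (κ : Fin n → ℕ) l) :
    tdeg (act B (κ0 : Fin n → ℕ)) < tdeg (act B (κ : Fin n → ℕ)) := by
  refine lt_of_le_of_ne (Finset.sum_le_sum fun l _ => hmin l) fun h => hne ?_
  have h1 := (Finset.sum_eq_sum_iff_of_le (fun l _ => hmin l)).1 h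
  have h2 : act B (κ0 : Fin n → ℕ) = act B (κ : Fin n → ℕ) := by
    funext l
    exact h1 l (Finset.mem_univ l)
  exact (DFunLike.coe_injective (act_inj hB h2)).symm

end Pool.H44.Cube
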